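import Mathlib
import Pool.Agent.P8H87.WangFin

/-!
# MP_da2aca_lc, Q1: `PTile_FIN` is arithmetical

The conjecture that `PTile_FIN` is not arithmetical is false: `PTile_FIN` is a `Δ⁰_2` set.  More
precisely, the property that all tilings by `S` are periodic is recursively enumerable, and so is
the property that `S` admits no tiling, so `PTile_FIN` is the intersection of a `Σ⁰_1` set and a `Π⁰_1` set.

The reason is a uniform bound on the periods: if every tiling by a finite set `S` of Wang tiles has
a nonzero period, then there is a number `N` such that every tiling by `S` has a nonzero period of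
size at most `N`; and the existence of such a bound is a property which can be verified on finite
patterns.
-/

namespace Pool.Agent.Results.MP_da2aca_lc.PeriodicArithmetical

open Pool.Agent.P8H87

theorem result :
    -- `PTile_FIN` is arithmetical; in fact it is both `Σ⁰_2` and `Π⁰_2`
    IsArithmetical PTileFin ∧ IsSigma 2 PTileFin ∧ IsPi 2 PTileFin ∧
    -- the set of finite prototile sets all of whose tilings are periodic is recursively enumerable
    REPred (fun c : ℕ => ∀ T, IsTiling (protoset c) T → IsPeriodic T) ∧
    -- the set of finite prototile sets which admit no tiling is recursively enumerable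
    REPred (fun c : ℕ => ¬ ∃ T, IsTiling (protoset c) T) ∧
    -- the periods of a set of tiles which has only periodic tilings are uniformly bounded
    (∀ S : List Tile, (∀ T, IsTiling S T → IsPeriodic T) →
      ∃ N : ℕ, ∀ T, IsTiling S T → ∃ v : ℤ × ℤ, v ≠ 0 ∧ |v.1| ≤ N ∧ |v.2| ≤ N ∧
        ∀ x, T (x + v) = T x) := by
  refine ⟨⟨2, sigma_two_ptile⟩, sigma_two_ptile, pi_two_ptile, re_all_periodic, re_no_tiling, ?_⟩
  intro S h
  obtain ⟨C, hC⟩ := good_of_periodic (isCompact_tilings S) (inv_tilings S) (fun T hT => h T hT)
  refine ⟨C, fun T hT => ?_⟩
  obtain ⟨v, h0, hv, hper⟩ := hC T hT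
  exact ⟨v, h0, (le_max_left _ _).trans hv, (le_max_right _ _).trans hv, hper⟩

end Pool.Agent.Results.MP_da2aca_lc.PeriodicArithmetical
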